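import Pool.Agent.H530R3.StrongDivWrap

/-!
# Recognising strongly 2-divisible graphs is coNP-hard

A graph is strongly 2-divisible when each of its induced subgraphs has a partition of its vertices
into two parts none of which contains a maximal clique with at least two vertices.  The input is
an adjacency matrix `M : List (List Bool)`; `matGraph M` is the graph.

The reduction (from 3SAT to the complement) builds a graph whose main vertices are forced to have
given colours by paths of length three between them; the forced colouring has a
monochromatic maximal clique exactly when the formula is satisfiable, and when some link or some
main vertex of the chain is missing, or the formula is not satisfiable, the induced subgraph has a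
2-clique-colouring.
-/

namespace Pool.Agent.Results.MP_65ccf5_lc.StronglyDivisibleCoNPHard

open Pool.Agent.NPC Pool.Agent.H622R2 Pool.Agent.H673R2 Pool.Agent.H530R3

/-- Recognition of strongly 2-divisible graphs is `coNP`-hard under polynomial-time many-one
reductions; so no polynomial-time algorithm recognises them if `P ≠ NP`. -/
theorem result :
    CoNPHardP (fun M : List (List Bool) => StronglyDivisible 2 (matGraph M)) ∧
    (PneNP → ¬ ∃ f : List Bool → List Bool, PolyTime f ∧
      ∀ M : List (List Bool), StronglyDivisible 2 (matGraph M) ↔ f (bits M) = [true]) :=
  ⟨HardI.toCoNPHardP hardI_not_stronglyDivisible,
    no_algorithm hardI_not_stronglyDivisible⟩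

end Pool.Agent.Results.MP_65ccf5_lc.StronglyDivisibleCoNPHard
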